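import Pool.Agent.H90.STE.Stmts
import Pool.Agent.H44.STK.CN2

/-!
# STE: conservation of differences, fourth inequality
-/

set_option autoImplicit false

namespace Pool.STE

open Finset Real MeasureTheory
open Pool.Agent.H49.Ent Pool.Agent.H32.Dense Pool.STK Pool.KA

namespace CD42

variable {m J : ℕ}

/-- The time and its first `k` digits. -/
lemma time_near (F : Fam m J) {k : ℕ} (hk : k ≤ J) (ω : F.Ω) :
    0 ≤ 2 ^ k * (F.t ω - (F.T1 k ω : ℝ) / 2 ^ k) ∧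
      2 ^ k * (F.t ω - (F.T1 k ω : ℝ) / 2 ^ k) ≤ 1 := by
  have h2k : (0 : ℝ) < 2 ^ k := by positivity
  have h2 : (0 : ℝ) < 2 ^ (J - k) := by positivity
  have hJ : (2 : ℝ) ^ J = 2 ^ k * 2 ^ (J - k) := by
    rw [← pow_add]
    congr 1
    omega
  have e1 : 2 ^ k * (F.t ω - (F.T1 k ω : ℝ) / 2 ^ k) =
      (F.T ω : ℝ) / 2 ^ (J - k) - F.T1 k ω := by
    unfold Fam.t
    rw [hJ]
    field_simp
  have h3 := Nat.div_add_mod (F.T ω) (2 ^ (J - k))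
  have h4 : F.T ω % 2 ^ (J - k) < 2 ^ (J - k) := Nat.mod_lt _ (by positivity)
  have e2 : (F.T ω : ℝ) = 2 ^ (J - k) * F.T1 k ω + ((F.T ω % 2 ^ (J - k) : ℕ) : ℝ) := by
    unfold Fam.T1
    exact_mod_cast h3.symm
  have h5 : (((F.T ω % 2 ^ (J - k) : ℕ)) : ℝ) < 2 ^ (J - k) := by exact_mod_cast h4
  have h6 : (0 : ℝ) ≤ ((F.T ω % 2 ^ (J - k) : ℕ) : ℝ) := Nat.cast_nonneg _
  have e3 : (F.T ω : ℝ) / 2 ^ (J - k) - F.T1 k ω =
      ((F.T ω % 2 ^ (J - k) : ℕ) : ℝ) / 2 ^ (J - k) := by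
    rw [div_sub' h2.ne', div_left_inj' h2.ne']
    linarith
  rw [e1, e3]
  refine ⟨by positivity, ?_⟩
  rw [div_le_one h2]
  exact h5.le

/-- Differences are conserved. -/
lemma near (F : Fam m J) {k r : ℕ} (hk : k ≤ J) {w : F.Ω × F.Ω}
    (hw : 0 < dbl F.p (bT F k r) w) (i : Fin m) :
    |((F.X ((r + 1) * k) w.2 i - F.X ((r + 1) * k) w.1 i -
      zT F k ((r + 1) * k) w i : ℤ) : ℝ)| ≤ 3 := by
  have hb : bT F k r w.1 = bT F k r w.2 := dbl_eq F.isLaw.nonneg hw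
  have hd : fl (r * k) (F.d w.1) = fl (r * k) (F.d w.2) := by
    unfold bT Fam.L at hb
    simp only [Prod.mk.injEq] at hb
    exact hb.1.2
  have hT : F.T w.1 = F.T w.2 := by
    unfold bT Fam.W at hb
    simp only [Prod.mk.injEq] at hb
    exact hb.2.1
  have ht : F.t w.1 = F.t w.2 := by
    unfold Fam.t
    rw [hT]
  have hT1 : F.T1 k w.1 = F.T1 k w.2 := by
    unfold Fam.T1
    rw [hT]
  obtain ⟨h4, h5⟩ := time_near F hk w.2
  have h3 := CN2.abs_lt_of_fl hd i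
  rw [abs_lt] at h3
  have hpow : (2 : ℝ) ^ ((r + 1) * k) = 2 ^ (r * k) * 2 ^ k := by
    rw [add_mul, one_mul, pow_add]
  set t := F.t w.2 with htd
  set t₀ := (F.T1 k w.2 : ℝ) / 2 ^ k with ht0
  have h6 : |2 ^ k * (t - t₀) * (2 ^ (r * k) * (F.d w.2 i - F.d w.1 i))| ≤ 1 := by
    rw [abs_mul, abs_of_nonneg h4]
    have := (abs_lt.mpr h3).le
    calc 2 ^ k * (t - t₀) * |2 ^ (r * k) * (F.d w.2 i - F.d w.1 i)| ≤ 1 * 1 :=
          mul_le_mul h5 this (abs_nonneg _) (by norm_num)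
      _ = 1 := by norm_num
  rw [abs_le] at h6
  have e1 : F.X ((r + 1) * k) w.2 i =
      ⌊(2 : ℝ) ^ ((r + 1) * k) * (F.u w.2 i + t * F.d w.2 i)⌋ := rfl
  have e2 : F.X ((r + 1) * k) w.1 i =
      ⌊(2 : ℝ) ^ ((r + 1) * k) * (F.u w.1 i + t * F.d w.1 i)⌋ := by
    rw [← ht]
    rfl
  have e3 : zT F k ((r + 1) * k) w i = ⌊(2 : ℝ) ^ ((r + 1) * k) *
    ((F.u w.2 i + t₀ * F.d w.2 i) - (F.u w.1 i + t₀ * F.d w.1 i))⌋ := by
    rw [ht0]
    show ⌊(2 : ℝ) ^ ((r + 1) * k) * (F.x1 k w.2 i - F.x1 k w.1 i)⌋ = _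
    unfold Fam.x1
    rw [hT1]
  rw [e1, e2, e3]
  set a := (2 : ℝ) ^ ((r + 1) * k) * (F.u w.2 i + t * F.d w.2 i) with ha
  set b := (2 : ℝ) ^ ((r + 1) * k) * (F.u w.1 i + t * F.d w.1 i) with hb'
  set c := (2 : ℝ) ^ ((r + 1) * k) *
    ((F.u w.2 i + t₀ * F.d w.2 i) - (F.u w.1 i + t₀ * F.d w.1 i)) with hc
  have h7 : a - b - c = 2 ^ k * (t - t₀) * (2 ^ (r * k) * (F.d w.2 i - F.d w.1 i)) := by
    rw [ha, hb', hc, hpow]
    ring
  rw [← h7] at h6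
  have fa := Int.floor_le a
  have fa' := Int.lt_floor_add_one a
  have fb := Int.floor_le b
  have fb' := Int.lt_floor_add_one b
  have fc := Int.floor_le c
  have fc' := Int.lt_floor_add_one c
  push_cast
  rw [abs_le]
  constructor <;> linarith [h6.1, h6.2]

end CD42

/-- Conservation of differences, fourth inequality. -/
theorem cd : CDStmt := by
  intro m J F k r hk
  have hq := CN2.isLaw_dbl (bT F k r) F.isLaw
  refine (CH_le_add hq.nonneg _ (zT F k ((r + 1) * k)) _).trans ?_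
  refine add_le_add le_rfl (CN2.CH_le_cc hq _ _ ?_)
  intro w w' a b h i
  simp only [Prod.mk.injEq] at h
  have h1 := CD42.near F hk a i
  have h2 := CD42.near F hk b i
  rw [h.1] at h1
  simp only [Pi.sub_apply]
  rw [abs_le] at h1 h2 ⊢
  push_cast at h1 h2 ⊢
  constructor <;> linarith [h1.1, h1.2, h2.1, h2.2]

end Pool.STE
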